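import Pool.Agent.Helper70.TW.Goals

/-!
# Packet TW-QE (project TW of helper70, MP_c7dfba_nt)

The evaluation formula.
-/

set_option autoImplicit false

namespace Pool.Agent.Helper5.TW

open MvPolynomial Pool.Agent.Helper70.BU Pool.Agent.Helper70.TW

universe u

theorem add_star {K : Type u} [Field K] (x : GF K) :
    x + star x = algebraMap K (GF K) (2 * x.re) := by
  ext
  · rw [QuadraticAlgebra.re_add, QuadraticAlgebra.re_star, QuadraticAlgebra.algebraMap_re]
    ring
  · rw [QuadraticAlgebra.im_add, QuadraticAlgebra.im_star, QuadraticAlgebra.algebraMap_im]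
    ring

/-- the values of the scalars -/
noncomputable def sv {K : Type u} [Field K] {p : ℕ} (l : Fin p → GF K) (μ : K) : Sc p → GF K :=
  fun o => Option.elim o (algebraMap K (GF K) μ) (Sum.elim l (fun k => star (l k)))

/-- the linear forms of `expP` -/
noncomputable def lin {K : Type u} [Field K] {n : ℕ} (p : ℕ) (v : Fin n → K) (i : Fin n) :
    MvPolynomial (Sc p) (MvPolynomial ((Fin n × Fin p) ⊕ (Fin n × Fin p)) (GF K)) :=
  (∑ k : Fin p, (X (some (Sum.inl k)) * C (X (Sum.inl (i, k))) +
      X (some (Sum.inr k)) * C (X (Sum.inr (i, k))))) + X none * C (C (algebraMap K (GF K) (v i)))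

/-- the constants of `expP` -/
noncomputable def con {K : Type u} [Field K] (n p : ℕ) :
    K →+* MvPolynomial (Sc p) (MvPolynomial ((Fin n × Fin p) ⊕ (Fin n × Fin p)) (GF K)) :=
  ((C : MvPolynomial ((Fin n × Fin p) ⊕ (Fin n × Fin p)) (GF K) →+* _).comp
      ((C : GF K →+* _).comp (algebraMap K (GF K))))

theorem expP_eq {K : Type u} [Field K] {n : ℕ} (p : ℕ) (v : Fin n → K)
    (f : MvPolynomial (Fin n) K) : expP p v f = eval₂ (con n p) (lin p v) f := rfl

theorem isHomogeneous_lin {K : Type u} [Field K] {n : ℕ} (p : ℕ) (v : Fin n → K) (i : Fin n) :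
    (lin p v i).IsHomogeneous 1 := by
  have hX : ∀ (o : Sc p) (a : MvPolynomial ((Fin n × Fin p) ⊕ (Fin n × Fin p)) (GF K)),
      (X o * C a : MvPolynomial (Sc p) _).IsHomogeneous 1 := by
    intro o a
    have := (isHomogeneous_X (MvPolynomial ((Fin n × Fin p) ⊕ (Fin n × Fin p)) (GF K)) o).mul
      (isHomogeneous_C (Sc p) a)
    simpa using this
  unfold lin
  refine IsHomogeneous.add (IsHomogeneous.sum _ _ _ fun k _ => (hX _ _).add (hX _ _)) (hX _ _)

theorem isHomogeneous_expP {K : Type u} [Field K] {n d : ℕ} (p : ℕ) (v : Fin n → K)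
    (f : MvPolynomial (Fin n) K) (hf : f.IsHomogeneous d) : (expP p v f).IsHomogeneous d := by
  rw [expP_eq]
  have := hf.eval₂ (con n p) (lin p v) (fun r => isHomogeneous_C _ _)
    (fun i => isHomogeneous_lin p v i)
  rwa [one_mul] at this

theorem eval_expP {K : Type u} [Field K] {n : ℕ} (p : ℕ) (v : Fin n → K)
    (f : MvPolynomial (Fin n) K) (z : Fin n × Fin p → GF K) (l : Fin p → GF K) (μ : K) :
    eval₂ (eval (Sum.elim z (fun i => star (z i)))) (sv l μ) (expP p v f) =
      algebraMap K (GF K) (eval (vec v z l μ) f) := by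
  have h : (eval₂Hom (eval (Sum.elim z (fun i => star (z i)))) (sv l μ)).comp
      (eval₂Hom (con n p) (lin p v)) = (algebraMap K (GF K)).comp (eval (vec v z l μ)) := by
    apply MvPolynomial.ringHom_ext
    · intro a
      simp only [RingHom.comp_apply, coe_eval₂Hom, eval₂_C, con, eval_C]
    · intro i
      have e1 : ∀ k : Fin p, algebraMap K (GF K) (2 * (l k * z (i, k)).re) =
          l k * z (i, k) + star (l k) * star (z (i, k)) := by
        intro k
        rw [← add_star, star_mul']
      simp only [RingHom.comp_apply, coe_eval₂Hom, eval₂_X, lin, eval_X, vec,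
        eval₂_mul, eval₂_C, sv, Option.elim, Sum.elim_inl, Sum.elim_inr, eval_C,
        map_add, map_sum, e1]
      rw [map_mul]
  have h2 := congrArg (fun φ : MvPolynomial (Fin n) K →+* GF K => φ f) h
  exact h2

theorem qe : QE.{u} := by
  intro K _ n p d v f hf z l μ
  rw [← eval_expP, eval₂_eq']
  have hE := isHomogeneous_expP p v f hf
  obtain ⟨G, hG⟩ : ∃ G : (Sc p →₀ ℕ) → GF K, G = fun x =>
      eval (Sum.elim z (fun i => star (z i))) (coeff x (expP p v f)) *
        ∏ i, sv l μ i ^ x i := ⟨_, rfl⟩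
  have h1 : ∑ x ∈ (expP p v f).support, G x =
      ∑ x ∈ (Finset.piAntidiag (Finset.univ : Finset (Sc p)) d).map
        (Finsupp.equivFunOnFinite.symm : (Sc p → ℕ) ≃ (Sc p →₀ ℕ)).toEmbedding, G x := by
    apply Finset.sum_subset
    · intro x hx
      rw [Finset.mem_map]
      refine ⟨Finsupp.equivFunOnFinite x, ?_, ?_⟩
      · rw [Finset.mem_piAntidiag]
        refine ⟨?_, fun i _ => Finset.mem_univ i⟩
        have h2 := hE (mem_support_iff.1 hx)
        rw [Finsupp.weight_apply, Finsupp.sum_fintype _ _ (by simp)] at h2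
        simpa using h2
      · simp
    · intro x _ hx
      rw [notMem_support_iff] at hx
      rw [hG]
      simp only [hx, map_zero, zero_mul]
  have h2 : ∑ x ∈ (expP p v f).support,
      eval (Sum.elim z (fun i => star (z i))) (coeff x (expP p v f)) * ∏ i, sv l μ i ^ x i =
        ∑ x ∈ (expP p v f).support, G x := by
    rw [hG]
  rw [h2, h1, Finset.sum_map]
  refine Finset.sum_congr rfl fun m _ => ?_
  rw [hG]
  simp only [Equiv.coe_toEmbedding, evs, cf, Fintype.prod_option, Fintype.prod_sum_type, sv,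
    Option.elim, Sum.elim_inl, Sum.elim_inr, Finsupp.equivFunOnFinite_symm_apply_apply,
    Finset.prod_mul_distrib]
  ring

end Pool.Agent.Helper5.TW
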